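import Mathlib
import Pool.Agent.Helper246.BlumLiou

set_option autoImplicit false

namespace Pool.Agent.Results.MP_6db618_an.AdjacentCoefficients

open Pool.Agent.Helper246.Blum Filter

/-- Let `p` be a complex polynomial whose two lowest possible coefficients `a_m`, `a_{m+1}` (where
`z^m` is the largest power of `z` dividing `p`) are both nonzero, or whose two top coefficients
are both nonzero.  If `f` is entire (for instance a polynomial) and `M(r,p) = M(r,f)` for all
`r > 0`, then `f` and `p` are equivalent. -/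
theorem result (p : Polynomial ℂ) (f : ℂ → ℂ) (hf : Differentiable ℂ f) (m : ℕ)
    (hm : p.coeff m ≠ 0) (hm1 : p.coeff (m + 1) ≠ 0)
    (hend : (∀ j < m, p.coeff j = 0) ∨ p.natDegree = m + 1)
    (hM : ∀ r : ℝ, 0 < r →
      sSup ((fun z => ‖p.eval z‖) '' Metric.sphere (0:ℂ) r) =
        sSup ((fun z => ‖f z‖) '' Metric.sphere (0:ℂ) r)) :
    ∃ ε η : ℂ, ‖ε‖ = 1 ∧ ‖η‖ = 1 ∧
      ((∀ z : ℂ, f z = ε * p.eval (η * z)) ∨
       (∀ z : ℂ, f z = ε * starRingEnd ℂ (p.eval (η * starRingEnd ℂ z)))) := by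
  obtain ⟨q, hq⟩ := poly_of_growth f hf _ p.natDegree (by
    filter_upwards [eventually_ge_atTop (1:ℝ)] with r hr
    have h1 : MM f r = MM (fun z => p.eval z) r := (hM r (by linarith)).symm
    rw [h1]
    exact MM_poly_le p r hr)
  have hfq : f = fun z => q.eval z := funext hq
  have hM2 : ∀ r : ℝ, 0 < r → MM (fun z => p.eval z) r = MM (fun z => q.eval z) r := by
    intro r hr
    have h1 := hM r hr
    rw [hfq] at h1
    exact h1
  rcases hend with h | h
  · obtain ⟨ε, η, hε, hη, h⟩ := bottom p q m hm hm1 h (by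
      filter_upwards [self_mem_nhdsWithin] with r hr
      exact hM2 r hr)
    refine ⟨ε, η, hε, hη, ?_⟩
    rw [hfq]
    exact h
  · obtain ⟨ε, η, hε, hη, h⟩ := top p q m hm h (by
      filter_upwards [eventually_gt_atTop (0:ℝ)] with r hr
      exact hM2 r hr)
    refine ⟨ε, η, hε, hη, ?_⟩
    rw [hfq]
    exact h

end Pool.Agent.Results.MP_6db618_an.AdjacentCoefficients
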