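import Mathlib
import Pool.Agent.Helper246.BlumTop

set_option autoImplicit false

namespace Pool.Agent.Results.MP_6db618_an.PolyTimesExpLocal

open Pool.Agent.Helper246.Blum Filter

/-- Let `f₁ = p₁ e^{g₁}` and `f₂ = p₂ e^{g₂}` with complex polynomials `p₁, g₁, p₂, g₂`, and let
`f₁(0) f₁'(0) ≠ 0`.  If `M(r,f₁) = M(r,f₂)` on some interval `0 < r < r₀`, then `f₁` and `f₂` are
equivalent. -/
theorem result (p₁ g₁ p₂ g₂ : Polynomial ℂ) (f₁ f₂ : ℂ → ℂ)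
    (hf₁ : ∀ z, f₁ z = p₁.eval z * Complex.exp (g₁.eval z))
    (hf₂ : ∀ z, f₂ z = p₂.eval z * Complex.exp (g₂.eval z))
    (h0 : f₁ 0 ≠ 0) (h1 : deriv f₁ 0 ≠ 0) (r₀ : ℝ) (hr₀ : 0 < r₀)
    (hM : ∀ r : ℝ, 0 < r → r < r₀ →
      sSup ((fun z => ‖f₁ z‖) '' Metric.sphere (0:ℂ) r) =
        sSup ((fun z => ‖f₂ z‖) '' Metric.sphere (0:ℂ) r)) :
    ∃ ε η : ℂ, ‖ε‖ = 1 ∧ ‖η‖ = 1 ∧
      ((∀ z : ℂ, f₂ z = ε * f₁ (η * z)) ∨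
       (∀ z : ℂ, f₂ z = ε * starRingEnd ℂ (f₁ (η * starRingEnd ℂ z)))) := by
  have e1 : f₁ = PE p₁ g₁ := funext hf₁
  have e2 : f₂ = PE p₂ g₂ := funext hf₂
  rw [e1] at h0 h1
  rw [e1, e2]
  rw [e1, e2] at hM
  refine thmA p₁ g₁ p₂ g₂ h0 h1 ?_
  have h2 : ∀ᶠ r in nhdsWithin (0:ℝ) (Set.Ioi 0), r < r₀ :=
    mem_nhdsWithin_of_mem_nhds (Iio_mem_nhds hr₀)
  filter_upwards [h2, self_mem_nhdsWithin] with r hr hr'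
  exact hM r hr' hr

end Pool.Agent.Results.MP_6db618_an.PolyTimesExpLocal
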